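import Pool.Agent.Helper37.RV.H

/-!
# Sets of run lengths closed under addition of a number
-/

set_option autoImplicit false

namespace Pool.Agent.Helper37.RW

open Pool.Agent.Helper37.RV (pr pr_self pr_ne pr_append pr_rep pr_free tl_zero' run_iff
  maxRun_reverse_iff Mo MaxRun Complete RunLang)
open Pool.Agent.Helper37.RU (tl tl_self tl_ne tl_append tl_rep tl_last tl_shift)

/-- adding multiples of `k` -/
theorem add_mem (E : Set ℕ) (k : ℕ) (hk : ∀ j ∈ E, k + j ∈ E) (m m' : ℕ)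
    (h : k ∣ m) (hm : m' ∈ E) : m + m' ∈ E := by
  obtain ⟨c, rfl⟩ := h
  induction c with
  | zero => simpa using hm
  | succ c ih =>
    have h1 := hk _ ih
    have h2 : k * (c + 1) + m' = k + (k * c + m') := by ring
    rw [h2]
    exact h1

theorem dvd_mem (E : Set ℕ) (h0 : 0 ∈ E) (k : ℕ) (hk : ∀ j ∈ E, k + j ∈ E) (m : ℕ)
    (h : k ∣ m) : m ∈ E := by
  have := add_mem E k hk m 0 h h0
  simpa using this

theorem pr_shift (E : Set ℕ) (k a : ℕ) (hk : ∀ j ∈ E, k + j ∈ E) (z : List ℕ) :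
    ∀ m m', k ∣ m → pr E a m' z → pr E a (m + m') z := by
  induction z with
  | nil => intro m m' _ _; trivial
  | cons l z ih =>
    intro m m' h hp
    by_cases hl : l = a
    · subst hl
      rw [pr_self] at hp ⊢
      rw [Nat.add_assoc]
      exact ih m (m' + 1) h hp
    · rw [pr_ne _ _ _ _ _ hl] at hp ⊢
      exact ⟨add_mem E k hk m m' h hp.1, hp.2⟩

theorem mo_nil (E : Set ℕ) (k a : ℕ) : Mo E k a [] := ⟨trivial, dvd_zero k⟩

theorem mo_mul (E : Set ℕ) (k a : ℕ) (hk : ∀ j ∈ E, k + j ∈ E) (u v : List ℕ)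
    (hu : Mo E k a u) (hv : Mo E k a v) : Mo E k a (u ++ v) := by
  refine ⟨?_, ?_⟩
  · rw [pr_append]
    exact ⟨hu.1, pr_shift E k a hk v _ 0 hu.2 hv.1⟩
  · rw [tl_append]
    exact (tl_shift k a v (tl a 0 u) 0 hu.2).2 hv.2

theorem mo_st (E : Set ℕ) (k a : ℕ) (u w v : List ℕ) (hu : Mo E k a u)
    (h1 : Mo E k a (u ++ w)) (h2 : Mo E k a (w ++ v)) : Mo E k a w := by
  refine ⟨((pr_append E a w v 0).1 h2.1).1, ?_⟩
  have h3 := h1.2
  rw [tl_append] at h3
  exact (tl_shift k a w (tl a 0 u) 0 hu.2).1 h3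

theorem mo_cut (E : Set ℕ) (k a : ℕ) (u v : List ℕ) (h : Mo E k a (u ++ v))
    (h0 : tl a 0 u = 0) : Mo E k a u ∧ Mo E k a v := by
  have h1 := (pr_append E a u v 0).1 h.1
  have h2 := h.2
  rw [tl_append, h0] at h2
  rw [h0] at h1
  exact ⟨⟨h1.1, by rw [h0]; exact dvd_zero k⟩, h1.2, h2⟩

/-- the multiples of `k` -/
def Mu (k : ℕ) : Set ℕ := {j | k ∣ j}

theorem mu_zero (k : ℕ) : 0 ∈ Mu k := dvd_zero k

theorem mu_add (k : ℕ) : ∀ j ∈ Mu k, k + j ∈ Mu k := fun _ hj => dvd_add (dvd_refl k) hj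

theorem mu_back (k m m' : ℕ) (h : k ∣ m) (h' : m + m' ∈ Mu k) : m' ∈ Mu k :=
  (Nat.dvd_add_right h).1 h'

theorem pr_mu_back (k a : ℕ) (z : List ℕ) :
    ∀ m m', k ∣ m → pr (Mu k) a (m + m') z → pr (Mu k) a m' z := by
  induction z with
  | nil => intro m m' _ _; trivial
  | cons l z ih =>
    intro m m' h hp
    by_cases hl : l = a
    · subst hl
      rw [pr_self] at hp ⊢
      rw [Nat.add_assoc] at hp
      exact ih m (m' + 1) h hp
    · rw [pr_ne _ _ _ _ _ hl] at hp ⊢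
      exact ⟨mu_back k m m' h hp.1, hp.2⟩

/-- a neutral letter: both directions agree -/
theorem mu_iff (k a : ℕ) (w : List ℕ) : Mo (Mu k) k a w ↔ ∀ j, MaxRun w a j → k ∣ j :=
  (run_iff (Mu k) (mu_zero k) a w).symm

theorem mu_rev (k a : ℕ) (w : List ℕ) : Mo (Mu k) k a w.reverse ↔ Mo (Mu k) k a w := by
  rw [mu_iff, mu_iff]
  constructor
  · intro h j hj
    exact h j ((maxRun_reverse_iff w a j).2 hj)
  · intro h j hj
    exact h j ((maxRun_reverse_iff w a j).1 hj)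

/-- cutting a word at a place where the run of the neutral letter is complete modulo `k` -/
theorem mu_cut (k a : ℕ) (u v : List ℕ) (h : Mo (Mu k) k a (u ++ v))
    (h0 : k ∣ tl a 0 u) : Mo (Mu k) k a u ∧ Mo (Mu k) k a v := by
  have h1 := (pr_append (Mu k) a u v 0).1 h.1
  have h2 := h.2
  rw [tl_append] at h2
  refine ⟨⟨h1.1, h0⟩, pr_mu_back k a v (tl a 0 u) 0 h0 (by rw [Nat.add_zero]; exact h1.2), ?_⟩
  have h3 := (tl_shift k a v (tl a 0 u) 0 h0).1
  rw [Nat.add_zero] at h3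
  exact h3 h2

end Pool.Agent.Helper37.RW
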