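import Pool.Agent.Helper37.RW.B

/-!
# The submonoid for two restricted letters, the other letters having runs of length divisible
# by given numbers
-/

set_option autoImplicit false

namespace Pool.Agent.Helper37.RW

open Pool.Agent.Helper31.BD
open Pool.Agent.Helper37.RV (pr pr_self pr_ne pr_append pr_rep pr_free tl_zero' run_iff
  maxRun_reverse_iff Mo MaxRun Complete RunLang pr_other pr_bound)
open Pool.Agent.Helper37.RU (tl tl_self tl_ne tl_append tl_rep tl_last tl_shift Irr over_flatten
  irr_gen irr_ud finite_words exists_rep)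

/-- runs of `p` are read from the left, runs of `q` from the right -/
def MM (n : ℕ) (Ep Eq : Set ℕ) (p q kp kq : ℕ) (kk : ℕ → ℕ) : Set (List ℕ) :=
  {w | (∀ a ∈ w, a < n) ∧ Mo Ep kp p w ∧ Mo Eq kq q w.reverse ∧
    ∀ a, a ≠ p → a ≠ q → Mo (Mu (kk a)) (kk a) a w}

variable {n : ℕ} {Ep Eq : Set ℕ} {p q kp kq : ℕ} {kk : ℕ → ℕ}

theorem mm_rev (w : List ℕ) :
    w ∈ MM n Ep Eq p q kp kq kk ↔ w.reverse ∈ MM n Eq Ep q p kq kp kk := by
  have h1 : (∀ a, a ≠ p → a ≠ q → Mo (Mu (kk a)) (kk a) a w) ↔
      (∀ a, a ≠ q → a ≠ p → Mo (Mu (kk a)) (kk a) a w.reverse) := by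
    constructor
    · intro h a ha hb
      exact (mu_rev _ _ _).2 (h a hb ha)
    · intro h a ha hb
      exact (mu_rev _ _ _).1 (h a hb ha)
  constructor
  · rintro ⟨a1, a2, a3, a4⟩
    exact ⟨fun a ha => a1 a (List.mem_reverse.1 ha), a3, by rwa [List.reverse_reverse], h1.1 a4⟩
  · rintro ⟨a1, a2, a3, a4⟩
    rw [List.reverse_reverse] at a3
    exact ⟨fun a ha => a1 a (List.mem_reverse.2 ha), a3, a2, h1.2 a4⟩

theorem mm_nil : [] ∈ MM n Ep Eq p q kp kq kk :=
  ⟨by simp, mo_nil _ _ _, by simpa using mo_nil _ _ _, fun _ _ _ => mo_nil _ _ _⟩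

theorem mm_mul (hp : ∀ j ∈ Ep, kp + j ∈ Ep) (hq : ∀ j ∈ Eq, kq + j ∈ Eq) :
    ∀ u ∈ MM n Ep Eq p q kp kq kk, ∀ v ∈ MM n Ep Eq p q kp kq kk,
      u ++ v ∈ MM n Ep Eq p q kp kq kk := by
  rintro u ⟨u1, u2, u3, u4⟩ v ⟨v1, v2, v3, v4⟩
  refine ⟨?_, mo_mul _ _ _ hp u v u2 v2, ?_, ?_⟩
  · intro a ha
    rcases List.mem_append.1 ha with h | h
    · exact u1 a h
    · exact v1 a h
  · rw [List.reverse_append]
    exact mo_mul _ _ _ hq _ _ v3 u3
  · intro a ha hb
    exact mo_mul _ _ _ (mu_add _) u v (u4 a ha hb) (v4 a ha hb)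

theorem mm_st : ∀ u w v : List ℕ, u ∈ MM n Ep Eq p q kp kq kk → v ∈ MM n Ep Eq p q kp kq kk →
    u ++ w ∈ MM n Ep Eq p q kp kq kk → w ++ v ∈ MM n Ep Eq p q kp kq kk →
    w ∈ MM n Ep Eq p q kp kq kk := by
  rintro u w v ⟨u1, u2, u3, u4⟩ ⟨v1, v2, v3, v4⟩ ⟨a1, a2, a3, a4⟩ ⟨b1, b2, b3, b4⟩
  refine ⟨fun a ha => b1 a (by simp [ha]), mo_st _ _ _ u w v u2 a2 b2, ?_, ?_⟩
  · rw [List.reverse_append] at a3 b3
    exact mo_st _ _ _ v.reverse w.reverse u.reverse v3 b3 a3
  · intro a ha hb
    exact mo_st _ _ _ u w v (u4 a ha hb) (a4 a ha hb) (b4 a ha hb)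

theorem irr_rev (w : List ℕ) (h : w ∈ Irr (MM n Ep Eq p q kp kq kk)) :
    w.reverse ∈ Irr (MM n Eq Ep q p kq kp kk) := by
  obtain ⟨h1, h2, h3⟩ := h
  refine ⟨(mm_rev w).1 h1, by simpa using h2, ?_⟩
  intro u v he hu hv
  have he' : w = v.reverse ++ u.reverse := by
    rw [← List.reverse_append, ← he, List.reverse_reverse]
  rcases h3 _ _ he' ((mm_rev v).1 hv) ((mm_rev u).1 hu) with h | h
  · right
    simpa using h
  · left
    simpa using h

/-- how the bound `B` for the runs is obtained -/
def Bd (E : Set ℕ) (k B : ℕ) : Prop :=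
  (0 < k ∧ k < B ∧ ∀ m, B ≤ k + m → k + m ∈ E → m ∈ E) ∨
    (k = 0 ∧ 0 < B ∧ ∀ j ∈ E, j < B)

theorem pr_unshift (E : Set ℕ) (k a B : ℕ) (hB : ∀ m, B ≤ k + m → k + m ∈ E → m ∈ E)
    (z : List ℕ) : ∀ m, B ≤ k + m → pr E a (k + m) z → pr E a m z := by
  induction z with
  | nil => intro m _ _; trivial
  | cons l z ih =>
    intro m h hp
    by_cases hl : l = a
    · subst hl
      rw [pr_self] at hp ⊢
      rw [Nat.add_assoc] at hp
      exact ih (m + 1) (by omega) hp
    · rw [pr_ne _ _ _ _ _ hl] at hp ⊢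
      exact ⟨hB m h hp.1, hp.2⟩

theorem claimA (hpq : p ≠ q) (h0q : 0 ∈ Eq) (B : ℕ) (hB : Bd Ep kp B)
    (w : List ℕ) (hw : w ∈ Irr (MM n Ep Eq p q kp kq kk)) (i : ℕ) (v : List ℕ)
    (he : w = List.replicate i p ++ v) : i < B := by
  rcases hB with ⟨hk, hkB, hB⟩ | ⟨hk, hB0, hB⟩
  swap
  · obtain ⟨⟨w1, w2, w3⟩, _, h3⟩ := hw
    have h4 := w2.1
    have h5 := w2.2
    rw [he, pr_rep, Nat.zero_add] at h4
    rw [he, tl_rep, Nat.zero_add, hk] at h5
    exact pr_bound Ep p B hB hB0 v i h4 (Nat.eq_zero_of_zero_dvd h5)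
  by_contra hi
  push Not at hi
  obtain ⟨i', rfl⟩ : ∃ i', i = kp + i' := ⟨i - kp, by omega⟩
  obtain ⟨⟨w1, w2, w3, w4⟩, _, h3⟩ := hw
  have hpn : p < n := by
    refine w1 p ?_
    rw [he]
    refine List.mem_append_left _ (List.mem_replicate.2 ⟨by omega, rfl⟩)
  have hsplit : w = List.replicate kp p ++ (List.replicate i' p ++ v) := by
    rw [he, List.replicate_add, List.append_assoc]
  have hneu : ∀ a, a ≠ p → tl a 0 (List.replicate kp p) = 0 := by
    intro a ha
    exact (pr_free Set.univ (Set.mem_univ _) a _ (fun h => ha (List.eq_of_mem_replicate h))).2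
  have hu : List.replicate kp p ∈ MM n Ep Eq p q kp kq kk := by
    refine ⟨?_, ?_, ?_, ?_⟩
    · intro a ha
      rw [List.eq_of_mem_replicate ha]
      exact hpn
    · have h4 := pr_rep Ep p kp [] 0
      have h5 := tl_rep p kp [] 0
      rw [List.append_nil, Nat.zero_add] at h4 h5
      exact ⟨h4.2 trivial, by rw [h5]; exact dvd_refl kp⟩
    · rw [List.reverse_replicate]
      have h4 := pr_other Eq h0q q p 0 kp hpq hk
      exact ⟨h4.1.2 h0q, by rw [h4.2]; exact dvd_zero kq⟩
    · intro a ha hb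
      have h4 := w4 a ha hb
      rw [hsplit] at h4
      exact (mu_cut _ _ _ _ h4 (by rw [hneu a ha]; exact dvd_zero _)).1
  have hv : List.replicate i' p ++ v ∈ MM n Ep Eq p q kp kq kk := by
    refine ⟨?_, ⟨?_, ?_⟩, ?_, ?_⟩
    · intro a ha
      refine w1 a ?_
      rw [hsplit]
      exact List.mem_append_right _ ha
    · have h4 := w2.1
      rw [he, pr_rep] at h4
      rw [pr_rep, Nat.zero_add]
      rw [Nat.zero_add] at h4
      exact pr_unshift Ep kp p B hB v i' hi h4
    · have h4 := w2.2
      rw [he, tl_rep, Nat.zero_add] at h4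
      rw [tl_rep, Nat.zero_add]
      exact (tl_shift kp p v kp i' (dvd_refl kp)).1 h4
    · have h4 := w3
      rw [he, List.reverse_append, List.reverse_replicate] at h4
      rw [List.reverse_append, List.reverse_replicate]
      have h5 := pr_other Eq h0q q p (tl q 0 v.reverse) (kp + i') hpq (by omega)
      have h6 := pr_other Eq h0q q p (tl q 0 v.reverse) i' hpq (by omega)
      refine ⟨?_, ?_⟩
      · rw [pr_append]
        have h7 := (pr_append Eq q v.reverse (List.replicate (kp + i') p) 0).1 h4.1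
        exact ⟨h7.1, h6.1.2 (h5.1.1 h7.2)⟩
      · rw [tl_append, h6.2]
        exact dvd_zero kq
    · intro a ha hb
      have h4 := w4 a ha hb
      rw [hsplit] at h4
      exact (mu_cut _ _ _ _ h4 (by rw [hneu a ha]; exact dvd_zero _)).2
  rcases h3 _ _ hsplit hu hv with h | h
  · have := congrArg List.length h
    simp at this
    omega
  · have := congrArg List.length h
    simp at this
    omega

theorem claimB (hpq : p ≠ q) (h0p : 0 ∈ Ep) (B : ℕ) (hB : Bd Eq kq B)
    (w : List ℕ) (hw : w ∈ Irr (MM n Ep Eq p q kp kq kk)) (j : ℕ) (v : List ℕ)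
    (he : w = v ++ List.replicate j q) : j < B := by
  refine claimA hpq.symm h0p B hB w.reverse (irr_rev w hw) j v.reverse ?_
  rw [he, List.reverse_append, List.reverse_replicate]

theorem claimC (w u v : List ℕ) (hw : w ∈ Irr (MM n Ep Eq p q kp kq kk)) (he : w = u ++ v)
    (hu : u ≠ []) (hv : v ≠ []) (h1 : tl p 0 u = 0) (h2 : tl q 0 v.reverse = 0)
    (h4 : ∀ a, a ≠ p → a ≠ q → kk a ∣ tl a 0 u) : False := by
  obtain ⟨⟨w1, w2, w3, w4⟩, _, h3⟩ := hw
  rw [he] at w2 w3 w4
  rw [List.reverse_append] at w3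
  obtain ⟨a1, a2⟩ := mo_cut _ _ _ _ _ w2 h1
  obtain ⟨b1, b2⟩ := mo_cut _ _ _ _ _ w3 h2
  rcases h3 u v he ⟨fun a ha => w1 a (by rw [he]; exact List.mem_append_left _ ha), a1, b2,
      fun a ha hb => (mu_cut _ _ _ _ (w4 a ha hb) (h4 a ha hb)).1⟩
    ⟨fun a ha => w1 a (by rw [he]; exact List.mem_append_right _ ha), a2, b1,
      fun a ha hb => (mu_cut _ _ _ _ (w4 a ha hb) (h4 a ha hb)).2⟩ with h | h
  · exact hu h
  · exact hv h

theorem tl_rep_end (a b j : ℕ) (u : List ℕ) (hj : 0 < j) (hab : a ≠ b) :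
    tl a 0 (u ++ List.replicate j b) = 0 := by
  rw [tl_append]
  exact (pr_other Set.univ (Set.mem_univ _) a b _ j (Ne.symm hab) hj).2

theorem tl_rep_same (a j : ℕ) (u : List ℕ) (hu : tl a 0 u = 0) :
    tl a 0 (u ++ List.replicate j a) = j := by
  rw [tl_append, hu]
  have h := tl_rep a j [] 0
  rw [List.append_nil, Nat.zero_add] at h
  exact h

theorem irr_len (hpq : p ≠ q) (h0p : 0 ∈ Ep) (h0q : 0 ∈ Eq) (B K : ℕ)
    (hBp : Bd Ep kp B) (hBq : Bd Eq kq B) (hK : ∀ a < n, a ≠ p → a ≠ q → 0 < kk a ∧ kk a ≤ K)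
    (w : List ℕ) (hw : w ∈ Irr (MM n Ep Eq p q kp kq kk)) :
    w.length ≤ 2 * B + K := by
  obtain ⟨i, z, h1, h2⟩ := exists_rep p w
  have hi := claimA hpq h0q B hBp w hw i z h1
  have hbig := hw
  obtain ⟨⟨w1, w2, w3, w4⟩, _, _⟩ := hbig
  rcases h2 with h2 | ⟨l, y, h2, hl⟩
  · rw [h1, h2]
    simp
    omega
  · by_cases hlq : l = q
    · -- the next letter is `q`
      subst hlq
      obtain ⟨j, z2, h3, h4⟩ := exists_rep l y
      have hw' : w = List.replicate i p ++ List.replicate (j + 1) l ++ z2 := by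
        rw [h1, h2, h3, List.replicate_succ]
        simp
      rcases h4 with h4 | ⟨x, y2, h4, hx⟩
      · have hj := claimB hpq h0p B hBq w hw (j + 1) (List.replicate i p) (by
          rw [hw', h4, List.append_nil])
        rw [hw', h4]
        simp
        omega
      · exfalso
        refine claimC w (List.replicate i p ++ List.replicate (j + 1) l) z2 hw hw' ?_ ?_ ?_ ?_ ?_
        · intro h
          have := congrArg List.length h
          simp at this
        · rw [h4]
          simp
        · exact tl_rep_end p l (j + 1) _ (Nat.succ_pos j) hpq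
        · rw [h4, List.reverse_cons]
          exact tl_last _ _ _ _ hx
        · intro a _ hb
          rw [tl_rep_end a l (j + 1) _ (Nat.succ_pos j) hb]
          exact dvd_zero _
    · -- a neutral letter
      have hln : l < n := by
        refine w1 l ?_
        rw [h1, h2]
        simp
      obtain ⟨hk0, hkK⟩ := hK l hln hl hlq
      obtain ⟨c, z2, h3, h4⟩ := exists_rep l (l :: y)
      have hc0 : 0 < c := by
        rcases Nat.eq_zero_or_pos c with h | h
        · rw [h, List.replicate_zero, List.nil_append] at h3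
          rcases h4 with h4 | ⟨x, y2, h4, hx⟩
          · rw [h4] at h3
            exact absurd h3 (List.cons_ne_nil _ _)
          · rw [h4] at h3
            exact absurd (List.cons_eq_cons.1 h3).1.symm hx
        · exact h
      have hw' : w = List.replicate i p ++ (List.replicate c l ++ z2) := by
        rw [h1, h2, h3]
      -- the run is a multiple of `kk l`
      have hdvd : kk l ∣ c := by
        refine (mu_iff (kk l) l w).1 (w4 l hl hlq) c ⟨hc0, List.replicate i p, z2, hw', ?_, ?_⟩
        · intro y' hy'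
          have h5 := List.mem_of_getLast? hy'
          rw [List.eq_of_mem_replicate h5]
          exact Ne.symm hl
        · intro x' hx'
          rcases h4 with h4 | ⟨x, y2, h4, hx⟩
          · rw [h4] at hx'
            simp at hx'
          · rw [h4] at hx'
            simp only [List.head?_cons, Option.mem_def, Option.some.injEq] at hx'
            rw [← hx']
            exact hx
      have hkc : kk l ≤ c := Nat.le_of_dvd hc0 hdvd
      have h0 : tl l 0 (List.replicate i p) = 0 :=
        (pr_free Set.univ (Set.mem_univ _) l _ (fun h => hl (List.eq_of_mem_replicate h))).2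
      rcases Nat.lt_or_ge (kk l) c with hlt | hge
      · -- cut inside the run
        exfalso
        obtain ⟨c', hc'⟩ : ∃ c', c = kk l + (c' + 1) := ⟨c - kk l - 1, by omega⟩
        refine claimC w (List.replicate i p ++ List.replicate (kk l) l)
          (List.replicate (c' + 1) l ++ z2) hw ?_ ?_ ?_ ?_ ?_ ?_
        · rw [hw', hc', List.replicate_add (kk l) (c' + 1)]
          simp only [List.append_assoc]
        · intro h
          have := congrArg List.length h
          simp at this
          omega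
        · intro h
          have := congrArg List.length h
          simp at this
        · exact tl_rep_end p l _ _ hk0 (Ne.symm hl)
        · rw [List.reverse_append, List.reverse_replicate]
          have h5 := pr_other Set.univ (Set.mem_univ _) q l (tl q 0 z2.reverse) (c' + 1) hlq
            (Nat.succ_pos c')
          rw [tl_append]
          exact h5.2
        · intro a ha hb
          by_cases hal : a = l
          · subst hal
            rw [tl_rep_same a _ _ h0]
          · rw [tl_rep_end a l _ _ hk0 hal]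
            exact dvd_zero _
      · have hce : c = kk l := le_antisymm hge hkc
        obtain ⟨j, z3, h5, h6⟩ := exists_rep q z2
        rcases h6 with h6 | ⟨x, y3, h6, hx⟩
        · have hj := claimB hpq h0p B hBq w hw j (List.replicate i p ++ List.replicate c l) (by
            rw [hw', h5, h6]
            simp)
          rw [hw', h5, h6]
          simp
          omega
        · exfalso
          refine claimC w (List.replicate i p ++ List.replicate c l ++ List.replicate j q) z3 hw
            ?_ ?_ ?_ ?_ ?_ ?_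
          · rw [hw', h5]
            simp
          · intro h
            have := congrArg List.length h
            simp at this
            omega
          · rw [h6]
            simp
          · rcases Nat.eq_zero_or_pos j with hj | hj
            · rw [hj, List.replicate_zero, List.append_nil]
              exact tl_rep_end p l _ _ hc0 (Ne.symm hl)
            · exact tl_rep_end p q _ _ hj hpq
          · rw [h6, List.reverse_cons]
            exact tl_last _ _ _ _ hx
          · intro a ha hb
            rcases Nat.eq_zero_or_pos j with hj | hj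
            · rw [hj, List.replicate_zero, List.append_nil]
              by_cases hal : a = l
              · subst hal
                rw [tl_rep_same a _ _ h0, hce]
              · rw [tl_rep_end a l _ _ hc0 hal]
                exact dvd_zero _
            · rw [tl_rep_end a q _ _ hj hb]
              exact dvd_zero _

/-- the base is finite and a code, and it generates -/
theorem exists_code (hpq : p ≠ q) (h0p : 0 ∈ Ep) (h0q : 0 ∈ Eq)
    (hp : ∀ j ∈ Ep, kp + j ∈ Ep) (hq : ∀ j ∈ Eq, kq + j ∈ Eq) (B K : ℕ)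
    (hBp : Bd Ep kp B) (hBq : Bd Eq kq B) (hK : ∀ a < n, a ≠ p → a ≠ q → 0 < kk a ∧ kk a ≤ K) :
    ∃ C : Finset (List ℕ), UD C ∧
      ∀ w, w ∈ Fac C ↔ ∃ u v, u ++ w ++ v ∈ MM n Ep Eq p q kp kq kk := by
  classical
  have hfin : (Irr (MM n Ep Eq p q kp kq kk)).Finite := by
    refine (finite_words n (2 * B + K)).subset ?_
    intro w hw
    exact ⟨hw.1.1, irr_len hpq h0p h0q B K hBp hBq hK w hw⟩
  have hC : ∀ w, w ∈ hfin.toFinset ↔ w ∈ Irr (MM n Ep Eq p q kp kq kk) :=
    fun w => hfin.mem_toFinset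
  refine ⟨hfin.toFinset, irr_ud mm_nil (mm_mul hp hq) mm_st hC, ?_⟩
  intro w
  constructor
  · rintro ⟨u, v, l, hl, he⟩
    refine ⟨u, v, ?_⟩
    rw [he]
    exact over_flatten mm_nil (mm_mul hp hq) hC l hl
  · rintro ⟨u, v, h⟩
    obtain ⟨l, hl, he⟩ := irr_gen hC _ _ le_rfl h
    exact ⟨u, v, l, hl, he⟩

end Pool.Agent.Helper37.RW
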