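import Pool.Agent.Helper37.RV.Defs

/-!
# MP_93aa28_lc: languages defined by the lengths of monochromatic blocks (definitions)
-/

set_option autoImplicit false

namespace Pool.Agent.Helper37.RW

open Pool.Agent.Helper37.RV (RunLang)

/-- finite, or consisting of all but finitely many multiples of a positive number -/
def Reg (S : Set ℕ) : Prop := S.Finite ∨ ∃ k, 0 < k ∧ (∀ j ∈ S, k ∣ j) ∧ ({j | k ∣ j} \ S).Finite

/-- the positive elements are the positive multiples of a positive number -/
def Neutral (S : Set ℕ) : Prop := ∃ k, 0 < k ∧ ∀ j, 0 < j → (j ∈ S ↔ k ∣ j)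

/-- words over the letters `0, .., N - 1` such that the word of the colours of the letters belongs
to the run length language -/
def ColLang (N : ℕ) (π : ℕ → ℕ) (n : ℕ) (S : ℕ → Set ℕ) : Set (List ℕ) :=
  {w | (∀ l ∈ w, l < N) ∧ w.map π ∈ RunLang n S}

end Pool.Agent.Helper37.RW
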