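import Pool.Agent.Helper37.RW.C
import Pool.Agent.Helper37.RW.Defs

/-!
# At most two letters which are not neutral
-/

set_option autoImplicit false

namespace Pool.Agent.Helper37.RW

open Pool.Agent.Helper31.BD
open Pool.Agent.Helper37.RV (pr pr_self pr_ne pr_append pr_rep pr_free tl_zero' run_iff
  maxRun_reverse_iff Mo MaxRun Complete RunLang pr_other pr_bound al side side_rev)
open Pool.Agent.Helper37.RU (tl tl_self tl_ne tl_append tl_rep tl_last tl_shift)

theorem al_neutral (k a p q s : ℕ) (c : List ℕ) (hap : a ≠ p) : Mo (Mu k) k a (al p q s c) := by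
  unfold al
  split_ifs
  · have h := pr_free (Mu k) (mu_zero k) a (List.replicate s p)
      (fun h => hap (List.eq_of_mem_replicate h))
    exact ⟨h.1, by rw [h.2]; exact dvd_zero k⟩
  · exact mo_nil _ _ _

theorem fac_eq (n : ℕ) (S : ℕ → Set ℕ) (p q kp kq sp sq : ℕ) (kk : ℕ → ℕ) (hpq : p ≠ q)
    (hpn : p < n) (hqn : q < n)
    (hp : ∀ j ∈ insert 0 (S p), kp + j ∈ insert 0 (S p))
    (hq : ∀ j ∈ insert 0 (S q), kq + j ∈ insert 0 (S q))
    (hsp : sp ∈ S p) (hsp0 : 0 < sp) (hsq : sq ∈ S q) (hsq0 : 0 < sq)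
    (hres : ∀ a < n, a ≠ p → a ≠ q → ∀ j, 0 < j → (j ∈ S a ↔ kk a ∣ j)) (w : List ℕ) :
    (∃ u v, u ++ w ++ v ∈ MM n (insert 0 (S p)) (insert 0 (S q)) p q kp kq kk) ↔
      w ∈ RunLang n S := by
  constructor
  · rintro ⟨u, v, h1, h2, h3, h4⟩
    refine ⟨u, v, h1, ?_⟩
    intro a j hj
    have hj0 : 0 < j := hj.1
    by_cases hap : a = p
    · subst hap
      have h5 := (run_iff (insert 0 (S a)) (Or.inl rfl) a (u ++ w ++ v)).2
        ⟨h2.1, dvd_mem _ (Or.inl rfl) kp hp _ h2.2⟩ j hj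
      exact Set.mem_of_mem_insert_of_ne h5 (by omega)
    by_cases haq : a = q
    · subst haq
      have h5 := (run_iff (insert 0 (S a)) (Or.inl rfl) a (u ++ w ++ v).reverse).2
        ⟨h3.1, dvd_mem _ (Or.inl rfl) kq hq _ h3.2⟩ j ((maxRun_reverse_iff _ _ _).2 hj)
      exact Set.mem_of_mem_insert_of_ne h5 (by omega)
    have h5 := (mu_iff _ _ _).1 (h4 a hap haq) j hj
    have han : a < n := by
      obtain ⟨_, u', v', he, _, _⟩ := hj
      refine h1 a ?_
      rw [he]
      refine List.mem_append_right _ (List.mem_append_left _ ?_)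
      exact List.mem_replicate.2 ⟨by omega, rfl⟩
    exact (hres a han hap haq j hj0).2 h5
  · rintro ⟨u, v, h1, h2⟩
    let c := u ++ w ++ v
    have hcp := (run_iff (insert 0 (S p)) (Or.inl rfl) p c).1
      (fun j hj => Or.inr (h2 p j hj))
    have hcq := (run_iff (insert 0 (S q)) (Or.inl rfl) q c.reverse).1
      (fun j hj => Or.inr (h2 q j ((maxRun_reverse_iff _ _ _).1 hj)))
    have e1 := side (insert 0 (S p)) (Or.inl rfl) p q sp sq hpq (Or.inr hsp) hsq0 c hcp.1 hcp.2
    have e2 := side (insert 0 (S q)) (Or.inl rfl) q p sq sp (Ne.symm hpq) (Or.inr hsq) hsp0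
      c.reverse hcq.1 hcq.2
    rw [← side_rev] at e2
    refine ⟨al p q sp c ++ u, v ++ al q p sq c.reverse, ?_⟩
    have hw : al p q sp c ++ u ++ w ++ (v ++ al q p sq c.reverse) =
        al p q sp c ++ (c ++ al q p sq c.reverse) := by
      simp only [c, List.append_assoc]
    rw [hw]
    refine ⟨?_, ⟨e1.1, by rw [e1.2]; exact dvd_zero kp⟩, ⟨e2.1, by rw [e2.2]; exact dvd_zero kq⟩,
      ?_⟩
    · intro a ha
      rcases List.mem_append.1 ha with h | h
      · unfold al at h
        split_ifs at h with h5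
        · rw [List.eq_of_mem_replicate h]
          exact hpn
        · simp at h
      · rcases List.mem_append.1 h with h | h
        · exact h1 a h
        · unfold al at h
          split_ifs at h with h5
          · rw [List.eq_of_mem_replicate h]
            exact hqn
          · simp at h
    · intro a hap haq
      refine mo_mul _ _ _ (mu_add _) _ _ (al_neutral _ _ _ _ _ _ hap)
        (mo_mul _ _ _ (mu_add _) _ _ ?_ (al_neutral _ _ _ _ _ _ haq))
      rw [mu_iff]
      intro j hj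
      have hj0 : 0 < j := hj.1
      have h5 := h2 a j hj
      have han : a < n := by
        obtain ⟨_, u', v', he, _, _⟩ := hj
        refine h1 a ?_
        change a ∈ c
        rw [he]
        refine List.mem_append_right _ (List.mem_append_left _ ?_)
        exact List.mem_replicate.2 ⟨by omega, rfl⟩
      exact (hres a han hap haq j hj0).1 h5

theorem exists_k (S : Set ℕ) (hS : Reg S) : ∃ k B : ℕ,
    (∀ j ∈ insert 0 S, k + j ∈ insert 0 S) ∧ ∀ B', B ≤ B' → Bd (insert 0 S) k B' := by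
  rcases hS with h | ⟨k0, hk0, hdiv, h⟩
  · obtain ⟨B, hB⟩ := h.bddAbove
    refine ⟨0, B + 1, fun j hj => by simpa using hj,
      fun B' hB' => Or.inr ⟨rfl, by omega, ?_⟩⟩
    intro j hj
    rcases hj with hj | hj
    · rw [hj]
      omega
    · have := hB hj
      omega
  · obtain ⟨R, hR⟩ := h.bddAbove
    have hbig : ∀ j, R < j → k0 ∣ j → j ∈ S := by
      intro j hj hd
      by_contra hjS
      have := hR (show j ∈ {j | k0 ∣ j} \ S from ⟨hd, hjS⟩)
      omega
    have hd0 : ∀ j ∈ insert 0 S, k0 ∣ j := by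
      intro j hj
      rcases hj with hj | hj
      · rw [hj]
        exact dvd_zero k0
      · exact hdiv j hj
    have hkR : R < k0 * (R + 1) := by
      have : 1 * (R + 1) ≤ k0 * (R + 1) := Nat.mul_le_mul_right _ hk0
      omega
    refine ⟨k0 * (R + 1), 2 * (k0 * (R + 1)) + 1, ?_, fun B' hB' => Or.inl ⟨by omega, by omega, ?_⟩⟩
    · intro j hj
      exact Or.inr (hbig _ (by omega) (dvd_add (dvd_mul_right _ _) (hd0 j hj)))
    · intro m hm hE
      have h1 : k0 ∣ m := (Nat.dvd_add_right (dvd_mul_right k0 (R + 1))).1 (hd0 _ hE)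
      exact Or.inr (hbig m (by omega) h1)

theorem sufficient (n : ℕ) (hn : 2 ≤ n) (S : ℕ → Set ℕ)
    (hS : ∀ a < n, Reg (S a)) (hne : ∀ a < n, ∃ j ∈ S a, 0 < j)
    (h : {a | a < n ∧ ¬ Neutral (S a)}.ncard ≤ 2) :
    ∃ C : Finset (List ℕ), UD C ∧ RunLang n S = Fac C := by
  classical
  obtain ⟨p, q, hpq, hpn, hqn, hs⟩ : ∃ p q : ℕ, p ≠ q ∧ p < n ∧ q < n ∧
      {a | a < n ∧ ¬ Neutral (S a)} ⊆ {p, q} := by
    have hfin : {a | a < n ∧ ¬ Neutral (S a)}.Finite :=
      (Set.finite_lt_nat n).subset (fun a ha => ha.1)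
    have hlt : ∀ a ∈ {a | a < n ∧ ¬ Neutral (S a)}, a < n := fun a ha => ha.1
    generalize {a | a < n ∧ ¬ Neutral (S a)} = s at h hfin hlt
    have h3 : s.ncard = 0 ∨ s.ncard = 1 ∨ s.ncard = 2 := by omega
    rcases h3 with h3 | h3 | h3
    · rw [Set.ncard_eq_zero hfin] at h3
      exact ⟨0, 1, by omega, by omega, by omega, by rw [h3]; exact Set.empty_subset _⟩
    · obtain ⟨a, ha⟩ := Set.ncard_eq_one.1 h3
      have han : a < n := hlt a (by rw [ha]; exact Set.mem_singleton a)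
      by_cases ha0 : a = 0
      · refine ⟨a, 1, by omega, han, by omega, ?_⟩
        rw [ha]
        intro x hx
        exact Or.inl hx
      · refine ⟨a, 0, ha0, han, by omega, ?_⟩
        rw [ha]
        intro x hx
        exact Or.inl hx
    · obtain ⟨a, b, e, hab⟩ := Set.ncard_eq_two.1 h3
      exact ⟨a, b, e, hlt a (by rw [hab]; exact Or.inl rfl),
        hlt b (by rw [hab]; exact Or.inr rfl), by rw [hab]⟩
  obtain ⟨sp, hsp, hsp0⟩ := hne p hpn
  obtain ⟨sq, hsq, hsq0⟩ := hne q hqn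
  obtain ⟨kp, Bp, hkp, hBp⟩ := exists_k (S p) (hS p hpn)
  obtain ⟨kq, Bq, hkq, hBq⟩ := exists_k (S q) (hS q hqn)
  have hneu : ∀ a < n, a ≠ p → a ≠ q → Neutral (S a) := by
    intro a ha hap haq
    by_contra hN
    rcases hs (show a ∈ {a | a < n ∧ ¬ Neutral (S a)} from ⟨ha, hN⟩) with h3 | h3
    · exact hap h3
    · exact haq h3
  let kk : ℕ → ℕ := fun a => if hN : Neutral (S a) then hN.choose else 1
  have hkk : ∀ a, Neutral (S a) → 0 < kk a ∧ ∀ j, 0 < j → (j ∈ S a ↔ kk a ∣ j) := by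
    intro a hN
    have h1 := hN.choose_spec
    have h2 : kk a = hN.choose := dif_pos hN
    rw [h2]
    exact h1
  let K := (Finset.range n).sup kk
  have hK : ∀ a < n, a ≠ p → a ≠ q → 0 < kk a ∧ kk a ≤ K := by
    intro a ha hap haq
    exact ⟨(hkk a (hneu a ha hap haq)).1, Finset.le_sup (f := kk) (Finset.mem_range.2 ha)⟩
  obtain ⟨C, hC, hF⟩ := exists_code (n := n) (Ep := insert 0 (S p)) (Eq := insert 0 (S q))
    (kp := kp) (kq := kq) (kk := kk) hpq (Or.inl rfl) (Or.inl rfl) hkp hkq (Bp + Bq) K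
    (hBp _ (by omega)) (hBq _ (by omega)) hK
  refine ⟨C, hC, ?_⟩
  ext w
  rw [hF w]
  exact (fac_eq n S p q kp kq sp sq kk hpq hpn hqn hkp hkq hsp hsp0 hsq hsq0
    (fun a ha hap haq => (hkk a (hneu a ha hap haq)).2) w).symm

end Pool.Agent.Helper37.RW
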