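import Pool.Agent.Helper37.RW.D

/-!
# The generating functions for run lengths which are multiples of a number
-/

set_option autoImplicit false

namespace Pool.Agent.Helper37.RW

open Pool.Agent.Helper31.BD
open Pool.Agent.Helper37.RV (pr pr_self pr_ne pr_append pr_rep pr_free W W_nil W_self W_ne W_ge
  base_rec coe_gap run_rec_fin Ff)
open Pool.Agent.Helper37.RU (tl tl_self tl_ne tl_append tl_rep tl_last tl_shift gf ind ind_congr
  ind_true ind_false ind_and gf_congr gf_step gf_const_mul gf_zero Gap gap_eval)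

variable {E : ℕ → Set ℕ}

theorem shift_k (E : Set ℕ) (a k R r : ℕ) (hE : ∀ j, R ≤ j → (j ∈ E ↔ k ∣ j)) (z : List ℕ) :
    ∀ m, R ≤ m → ((pr E a (m + k) z ∧ tl a (m + k) z + r ∈ E) ↔
      (pr E a m z ∧ tl a m z + r ∈ E)) := by
  have hmem : ∀ m, R ≤ m → (m + k ∈ E ↔ m ∈ E) := by
    intro m hm
    rw [hE _ (by omega), hE _ hm, Nat.dvd_add_left (dvd_refl k)]
  induction z with
  | nil =>
    intro m hm
    have h1 : (tl a (m + k) [] + r ∈ E) ↔ (tl a m [] + r ∈ E) := by
      simp only [tl]
      have h2 : m + k + r = (m + r) + k := by omega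
      rw [h2]
      exact hmem _ (by omega)
    exact and_congr Iff.rfl h1
  | cons l z ih =>
    intro m hm
    by_cases hl : l = a
    · subst hl
      rw [pr_self, tl_self, pr_self, tl_self]
      have h2 : m + k + 1 = (m + 1) + k := by omega
      rw [h2]
      exact ih (m + 1) (by omega)
    · rw [pr_ne _ _ _ _ _ hl, tl_ne _ _ _ _ hl, pr_ne _ _ _ _ _ hl, tl_ne _ _ _ _ hl,
        hmem m hm]

theorem W_shift (y R' x R k m : ℕ) (z : List ℕ) (hE : ∀ j, R ≤ j → (j ∈ E x ↔ k ∣ j))
    (hm : R ≤ m) : W E y R' x (m + k) z ↔ W E y R' x m z := by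
  unfold W
  refine forall_congr' fun a => ?_
  by_cases hax : a = x
  · subst hax
    rw [if_pos rfl, if_pos rfl]
    exact shift_k _ _ k R _ hE z m hm
  · rw [if_neg hax, if_neg hax]

/-- the polynomial of a letter -/
noncomputable def ek (D : Finset ℕ) (k : ℕ) (c : ℂ) : Polynomial ℂ :=
  1 - (1 - (Polynomial.C c * Polynomial.X) ^ k) * Gap D c

open Classical in
/-- the excluded multiples -/
noncomputable def Dk (E : Set ℕ) (k R : ℕ) : Finset ℕ :=
  (Finset.range R).filter (fun j => k ∣ j ∧ j ∉ E)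

theorem run_rec_k (h0 : ∀ a, 0 ∈ E a) (S : Finset ℕ) (wt : ℕ → ℂ) (y R' x R k : ℕ) (hx : x ∈ S)
    (hR' : R' ∈ E y) (hk : 0 < k) (hkR : k ∣ R) (hdiv : ∀ j ∈ E x, k ∣ j)
    (hbig : ∀ j, R ≤ j → k ∣ j → j ∈ E x) (hxy : x = y → R' = R) :
    (ek (Dk (E x) k R) k (wt x) : PowerSeries ℂ) * gf S wt (fun z => ind (W E y R' x R z)) =
      PowerSeries.X * ∑ l ∈ S, PowerSeries.C (wt l) * gf S wt (fun z => ind (W E y R' l 1 z)) +
        1 - PowerSeries.C (ind (x = y)) * (Gap (Dk (E x) k R) (wt x) : PowerSeries ℂ) := by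
  classical
  have hE : ∀ j, R ≤ j → (j ∈ E x ↔ k ∣ j) := fun j hj => ⟨hdiv j, hbig j hj⟩
  let F : ℕ → PowerSeries ℂ := fun m => gf S wt (fun z => ind (W E y R' x m z))
  let Z : PowerSeries ℂ := PowerSeries.C (wt x) * PowerSeries.X
  let N : PowerSeries ℂ := PowerSeries.X * ∑ l ∈ S.erase x,
    PowerSeries.C (wt l) * gf S wt (fun z => ind (W E y R' l 1 z))
  let G : ℕ → PowerSeries ℂ := fun m => F (R + m)
  have hper : ∀ m, R ≤ m → F (m + k) = F m := by
    intro m hm
    exact gf_congr S wt _ _ fun z _ => ind_congr (W_shift y R' x R k m z hE hm)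
  have hper2 : ∀ c, F (R + k * c) = F R := by
    intro c
    induction c with
    | zero => simp
    | succ c ih =>
      have h2 : R + k * (c + 1) = (R + k * c) + k := by ring
      rw [h2, hper _ (Nat.le_add_right _ _), ih]
  have hdk : ∀ m, k ∣ R + m ↔ k ∣ m := fun m => Nat.dvd_add_right hkR
  have hepsG : ∀ m, (R + m + (if x = y then R' else 0) ∈ E x) ↔ k ∣ m := by
    intro m
    by_cases h : x = y
    · rw [if_pos h, hxy h, hE _ (by omega)]
      have h2 : R + m + R = R + (R + m) := by ring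
      rw [h2, hdk, hdk]
    · rw [if_neg h, Nat.add_zero, hE _ (by omega), hdk]
  have hG : ∀ m, G m = PowerSeries.C (ind (k ∣ m)) * (1 + N) + Z * G (m + 1) := by
    intro m
    have h1 : F (R + m) = PowerSeries.C (ind (R + m + (if x = y then R' else 0) ∈ E x)) +
        Z * F (R + m + 1) + PowerSeries.C (ind (R + m ∈ E x)) * N :=
      base_rec h0 S wt y R' x hx hR' (R + m)
    have h2 : ind (R + m ∈ E x) = ind (k ∣ m) := ind_congr (by rw [hE _ (by omega), hdk])
    rw [ind_congr (hepsG m), h2] at h1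
    change F (R + m) = _ + Z * F (R + m + 1)
    rw [h1]
    ring
  have hepsF : ∀ m, (m + (if x = y then R' else 0) ∈ E x) ↔ ((x = y ∧ k ∣ m) ∨ m ∈ E x) := by
    intro m
    by_cases h : x = y
    · rw [if_pos h, hxy h, hE _ (by omega), Nat.add_comm m R, hdk]
      constructor
      · intro h1
        exact Or.inl ⟨h, h1⟩
      · rintro (h1 | h1)
        · exact h1.2
        · exact hdiv m h1
    · rw [if_neg h, Nat.add_zero]
      constructor
      · exact Or.inr
      · rintro (h1 | h1)
        · exact absurd h1.1 h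
        · exact h1
  have hF : ∀ m, F m = PowerSeries.C (ind ((x = y ∧ k ∣ m) ∨ m ∈ E x)) + Z * F (m + 1) +
      PowerSeries.C (ind (m ∈ E x)) * N := by
    intro m
    have h1 := base_rec h0 S wt y R' x hx hR' m
    rw [ind_congr (hepsF m)] at h1
    exact h1
  have hdel : ∀ m, G m - F m = PowerSeries.C (ind (k ∣ m ∧ m ∉ E x)) *
      (1 - PowerSeries.C (ind (x = y)) + N) + Z * (G (m + 1) - F (m + 1)) := by
    intro m
    have h1 := hF m
    have h2 := hG m
    by_cases hm : m ∈ E x
    · rw [ind_true (Or.inr hm), ind_true hm, map_one, one_mul] at h1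
      rw [ind_true (hdiv m hm), map_one, one_mul] at h2
      rw [ind_false (fun h : k ∣ m ∧ m ∉ E x => h.2 hm), map_zero, zero_mul, zero_add]
      linear_combination h2 - h1
    · by_cases hkm : k ∣ m
      · have e1 : ind ((x = y ∧ k ∣ m) ∨ m ∈ E x) = ind (x = y) :=
          ind_congr ⟨fun h => h.elim (fun h => h.1) (fun h => absurd h hm), fun h => Or.inl ⟨h, hkm⟩⟩
        rw [e1, ind_false hm, map_zero, zero_mul, add_zero] at h1
        rw [ind_true hkm, map_one, one_mul] at h2
        rw [ind_true ⟨hkm, hm⟩, map_one, one_mul]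
        linear_combination h2 - h1
      · rw [ind_false (fun h : (x = y ∧ k ∣ m) ∨ m ∈ E x =>
          h.elim (fun h => hkm h.2) (fun h => hm h)), ind_false hm, map_zero, zero_mul, add_zero,
          zero_add] at h1
        rw [ind_false hkm, map_zero, zero_mul, zero_add] at h2
        rw [ind_false (fun h : k ∣ m ∧ m ∉ E x => hkm h.1), map_zero, zero_mul, zero_add]
        linear_combination h2 - h1
  have htel : ∀ M, G 0 - F 0 = (∑ m ∈ Finset.range M,
      PowerSeries.C (ind (k ∣ m ∧ m ∉ E x)) * Z ^ m) *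
      (1 - PowerSeries.C (ind (x = y)) + N) + Z ^ M * (G M - F M) := by
    intro M
    induction M with
    | zero => simp
    | succ M ih =>
      rw [Finset.sum_range_succ, ih, hdel M]
      ring
  have hGap : (Gap (Dk (E x) k R) (wt x) : PowerSeries ℂ) =
      ∑ m ∈ Finset.range R, PowerSeries.C (ind (k ∣ m ∧ m ∉ E x)) * Z ^ m := by
    rw [coe_gap]
    have h2 : ∑ m ∈ Finset.range R, PowerSeries.C (ind (k ∣ m ∧ m ∉ E x)) * Z ^ m =
        ∑ m ∈ Finset.range R, if (k ∣ m ∧ m ∉ E x) then Z ^ m else 0 := by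
      refine Finset.sum_congr rfl fun m _ => ?_
      by_cases hm : k ∣ m ∧ m ∉ E x
      · rw [ind_true hm, if_pos hm, map_one, one_mul]
      · rw [ind_false hm, if_neg hm, map_zero, zero_mul]
    rw [h2, ← Finset.sum_filter]
    rfl
  have hGR : G R - F R = 0 := by
    obtain ⟨c, hc⟩ := hkR
    have h1 : G R = F R := by
      change F (R + R) = F R
      have h2 := hper2 c
      rw [← hc] at h2
      exact h2
    rw [h1, sub_self]
  have hK0 := htel R
  rw [hGR, mul_zero, add_zero, ← hGap] at hK0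
  -- the period
  have hchain : ∀ j, 1 ≤ j → j ≤ k → G 1 = Z ^ (j - 1) * G j := by
    intro j hj1
    induction j, hj1 using Nat.le_induction with
    | base => intro _; simp
    | succ j hj ih =>
      intro hjk
      have h1 := ih (by omega)
      have h2 := hG j
      have h3 : ¬ k ∣ j := fun h => by
        have := Nat.le_of_dvd (by omega) h
        omega
      rw [ind_false h3, map_zero, zero_mul, zero_add] at h2
      rw [h1, h2]
      have h4 : j + 1 - 1 = (j - 1) + 1 := by omega
      rw [h4, pow_succ]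
      ring
  have hA : F R = 1 + N + Z ^ k * F R := by
    have h1 := hG 0
    rw [ind_true (dvd_zero k), map_one, one_mul, Nat.zero_add, hchain k hk le_rfl] at h1
    have h2 : G k = F R := hper R le_rfl
    have h3 : G 0 = F R := rfl
    rw [h2, h3] at h1
    obtain ⟨k', rfl⟩ : ∃ k', k = k' + 1 := ⟨k - 1, by omega⟩
    rw [Nat.add_sub_cancel] at h1
    rw [pow_succ]
    linear_combination h1
  have hF0 := hF 0
  rw [ind_true (Or.inr (h0 x)), ind_true (h0 x), map_one, one_mul, Nat.zero_add] at hF0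
  have hsum : PowerSeries.X * ∑ l ∈ S, PowerSeries.C (wt l) *
      gf S wt (fun z => ind (W E y R' l 1 z)) = Z * F 1 + N := by
    rw [← Finset.add_sum_erase S _ hx]
    simp only [Z, N, F]
    ring
  rw [hsum]
  have hee : (ek (Dk (E x) k R) k (wt x) : PowerSeries ℂ) =
      1 - (1 - Z ^ k) * (Gap (Dk (E x) k R) (wt x) : PowerSeries ℂ) := by
    unfold ek
    simp only [Polynomial.coe_sub, Polynomial.coe_one, Polynomial.coe_mul, Polynomial.coe_pow,
      Polynomial.coe_C, Polynomial.coe_X, Z]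
  rw [hee]
  change (1 - (1 - Z ^ k) * (Gap (Dk (E x) k R) (wt x) : PowerSeries ℂ)) * F R = _
  have hK1 : F R - F 0 = (Gap (Dk (E x) k R) (wt x) : PowerSeries ℂ) *
      (1 - PowerSeries.C (ind (x = y)) + N) := hK0
  generalize (Gap (Dk (E x) k R) (wt x) : PowerSeries ℂ) = Γ at *
  linear_combination hK1 + hF0 - Γ * hA

theorem ek_eval (D : Finset ℕ) (k : ℕ) (c : ℂ) :
    (ek D k c).eval 1 = 1 - (1 - c ^ k) * (Gap D c).eval 1 := by
  unfold ek
  simp

theorem exists_root_k (D : Finset ℕ) (k : ℕ) (hk : 0 < k) (hD : D.Nonempty) :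
    ∃ c : ℂ, (ek D k c).eval 1 = 0 := by
  let M := D.max' hD
  let p : Polynomial ℂ := 1 - (1 - Polynomial.X ^ k) * ∑ j ∈ D, Polynomial.X ^ j
  have hM : M ∈ D := D.max'_mem hD
  have hcoef : p.coeff (M + k) = 1 := by
    have h1 : p = 1 - ∑ j ∈ D, Polynomial.X ^ j + (∑ j ∈ D, Polynomial.X ^ j) * Polynomial.X ^ k := by
      simp only [p]
      ring
    rw [h1, Polynomial.coeff_add, Polynomial.coeff_sub, Polynomial.coeff_mul_X_pow,
      Polynomial.finset_sum_coeff, Polynomial.finset_sum_coeff]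
    have h2 : ∑ j ∈ D, (Polynomial.X ^ j : Polynomial ℂ).coeff (M + k) = 0 := by
      refine Finset.sum_eq_zero fun j hj => ?_
      have := D.le_max' j hj
      rw [Polynomial.coeff_X_pow, if_neg]
      intro h
      have h' : D.max' hD + k = j := h
      omega
    have h3 : ∑ j ∈ D, (Polynomial.X ^ j : Polynomial ℂ).coeff M = 1 := by
      rw [Finset.sum_eq_single M]
      · simp
      · intro j _ hj
        rw [Polynomial.coeff_X_pow, if_neg (Ne.symm hj)]
      · intro h
        exact absurd hM h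
    rw [h2, h3, Polynomial.coeff_one, if_neg (by omega)]
    ring
  have hdeg : p.degree ≠ 0 := by
    intro h
    have h1 : p.coeff (M + k) = 0 := by
      refine Polynomial.coeff_eq_zero_of_degree_lt ?_
      rw [h]
      have : 0 < M + k := by omega
      exact_mod_cast this
    rw [hcoef] at h1
    exact one_ne_zero h1
  obtain ⟨c, hc⟩ := IsAlgClosed.exists_root p hdeg
  refine ⟨c, ?_⟩
  rw [ek_eval, gap_eval]
  have h2 : p.eval c = 0 := hc
  simp only [p, Polynomial.eval_sub, Polynomial.eval_one, Polynomial.eval_mul, Polynomial.eval_X,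
    Polynomial.eval_finset_sum, Polynomial.eval_pow] at h2
  exact h2

/-- the data of a letter which is not neutral -/
theorem letter (h0 : ∀ a, 0 ∈ E a) (x : ℕ) (hS : Reg (E x))
    (hne : ∃ j ∈ E x, 0 < j) (hres : ¬ Neutral (E x)) :
    ∃ (R : ℕ) (c : ℂ) (e g : Polynomial ℂ), 0 < R ∧ R ∈ E x ∧ e.eval 1 = 0 ∧
      g.eval 1 ≠ 0 ∧ ∀ (S : Finset ℕ) (wt : ℕ → ℂ) (y R' : ℕ), x ∈ S → wt x = c → R' ∈ E y →
        (x = y → R' = R) → (e : PowerSeries ℂ) * gf S wt (fun z => ind (W E y R' x R z)) =
      PowerSeries.X * ∑ l ∈ S, PowerSeries.C (wt l) * gf S wt (fun z => ind (W E y R' l 1 z)) +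
        1 - PowerSeries.C (ind (x = y)) * (g : PowerSeries ℂ) := by
  classical
  rcases hS with h | ⟨k, hk, hdiv, h⟩
  · -- finite
    have hfne : h.toFinset.Nonempty := ⟨0, h.mem_toFinset.2 (h0 x)⟩
    let R := h.toFinset.max' hfne
    have hR : R ∈ E x := h.mem_toFinset.1 (h.toFinset.max'_mem hfne)
    have hfin : ∀ j ∈ E x, j ≤ R := fun j hj => h.toFinset.le_max' j (h.mem_toFinset.2 hj)
    have hR0 : 0 < R := by
      obtain ⟨j, hj, hj0⟩ := hne
      exact lt_of_lt_of_le hj0 (hfin j hj)
    let p : Polynomial ℂ := 1 + ∑ j ∈ Ff (E x) R, Polynomial.X ^ j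
    have hRF : R ∈ Ff (E x) R := by
      unfold Ff
      rw [Finset.mem_filter, Finset.mem_range]
      exact ⟨Nat.lt_succ_self R, hR0, hR⟩
    have hcoef : p.coeff R = 1 := by
      simp only [p]
      rw [Polynomial.coeff_add, Polynomial.finset_sum_coeff, Polynomial.coeff_one,
        if_neg (by omega), Finset.sum_eq_single R]
      · simp
      · intro j _ hj
        rw [Polynomial.coeff_X_pow, if_neg (Ne.symm hj)]
      · intro h
        exact absurd hRF h
    have hdeg : p.degree ≠ 0 := by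
      intro hd
      have h1 : p.coeff R = 0 := by
        refine Polynomial.coeff_eq_zero_of_degree_lt ?_
        rw [hd]
        exact_mod_cast hR0
      rw [hcoef] at h1
      exact one_ne_zero h1
    obtain ⟨c, hc⟩ := IsAlgClosed.exists_root p hdeg
    refine ⟨R, c, 1 + Gap (Ff (E x) R) c, 1, hR0, hR, ?_, by simp, ?_⟩
    · rw [Polynomial.eval_add, gap_eval, Polynomial.eval_one]
      have h2 : p.eval c = 0 := hc
      simp only [p, Polynomial.eval_add, Polynomial.eval_one, Polynomial.eval_finset_sum,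
        Polynomial.eval_pow, Polynomial.eval_X] at h2
      exact h2
    · intro S wt y R' hx hw hR' hxy
      rw [← hw]
      exact run_rec_fin h0 S wt y R' x R hx hR' hR hR0 hfin hxy
  · -- all but finitely many multiples of `k`
    obtain ⟨B, hB⟩ := h.bddAbove
    have hbig : ∀ j, B < j → k ∣ j → j ∈ E x := by
      intro j hj hd
      by_contra hjS
      have := hB (show j ∈ {j | k ∣ j} \ E x from ⟨hd, hjS⟩)
      omega
    let R := k * (B + 1)
    have hRB : B < R := by
      have : 1 * (B + 1) ≤ k * (B + 1) := Nat.mul_le_mul_right _ hk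
      change B < k * (B + 1)
      omega
    have hkR : k ∣ R := dvd_mul_right k (B + 1)
    have hDne : (Dk (E x) k R).Nonempty := by
      by_contra hem
      apply hres
      refine ⟨k, hk, fun j hj => ⟨hdiv j, fun hd => ?_⟩⟩
      by_contra hjE
      apply hem
      refine ⟨j, ?_⟩
      unfold Dk
      rw [Finset.mem_filter, Finset.mem_range]
      refine ⟨?_, hd, hjE⟩
      have := hB (show j ∈ {j | k ∣ j} \ E x from ⟨hd, hjE⟩)
      omega
    obtain ⟨c, hc⟩ := exists_root_k (Dk (E x) k R) k hk hDne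
    refine ⟨R, c, ek (Dk (E x) k R) k c, Gap (Dk (E x) k R) c, by omega,
      hbig R hRB hkR, hc, ?_, ?_⟩
    · intro hg
      rw [ek_eval, hg] at hc
      simp at hc
    · intro S wt y R' hx hw hR' hxy
      rw [← hw]
      exact run_rec_k h0 S wt y R' x R k hx hR' hk hkR hdiv
        (fun j hj hd => hbig j (by omega) hd) hxy

end Pool.Agent.Helper37.RW
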