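import Pool.Agent.Helper37.RW.G

/-!
# Synchronization and colours
-/

set_option autoImplicit false

namespace Pool.Agent.Helper37.RW

open Pool.Agent.Helper31.BD
open Pool.Agent.Helper37.RV (pr pr_self pr_ne pr_append pr_rep pr_free tl_zero' W pr_other pr_head
  Complete RunLang Ez complete_iff split2 split3 tl_end)
open Pool.Agent.Helper37.RU (tl tl_self tl_ne tl_append tl_rep tl_last tl_shift gf ind ind_congr
  ind_true ind_false gf_congr cnt rank_one fac_trans algebra)

variable {S : ℕ → Set ℕ} {n : ℕ}

/-- exact anchors are synchronizing -/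
theorem sync (P Q z : List ℕ) (x y R R' c d : ℕ) (hR0 : 0 < R) (hR0' : 0 < R')
    (hc : c ≠ x) (hd : d ≠ y)
    (hP : P ++ [c] ++ List.replicate R x ∈ RunLang n S)
    (hQ : List.replicate R' y ++ (d :: Q) ∈ RunLang n S) (hz : ∀ a ∈ z, a < n) :
    P ++ [c] ++ List.replicate R x ++ z ++ (List.replicate R' y ++ (d :: Q)) ∈ RunLang n S ↔
      W (Ez S) y R' x R z := by
  have hend : ∀ (u : List ℕ) (a : ℕ), tl a 0 ((u ++ (P ++ [c])) ++ List.replicate R x) =
      if a = x then R else 0 := by
    intro u a
    by_cases hax : a = x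
    · subst hax
      rw [if_pos rfl, tl_append]
      have h1 : tl a 0 (u ++ (P ++ [c])) = 0 := by
        rw [← List.append_assoc]
        exact tl_last _ _ _ _ hc
      have h := tl_rep a R [] 0
      rw [List.append_nil, Nat.zero_add] at h
      rw [h1]
      exact h
    · rw [if_neg hax]
      exact (tl_end a x R _ hR0).2 hax
  constructor
  · rintro ⟨u, v, hcm⟩
    rw [complete_iff] at hcm
    have hw : u ++ (P ++ [c] ++ List.replicate R x ++ z ++ (List.replicate R' y ++ (d :: Q))) ++ v =
        ((u ++ (P ++ [c])) ++ List.replicate R x) ++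
          (z ++ (List.replicate R' y ++ (d :: (Q ++ v)))) := by
      simp only [List.append_assoc, List.cons_append]
    rw [hw] at hcm
    intro a
    have h1 := (split3 _ _ _ _ _).1 (hcm.2 a)
    rw [hend u a] at h1
    obtain ⟨_, h2, h3, _⟩ := h1
    refine ⟨h2, ?_⟩
    by_cases hay : a = y
    · subst hay
      rw [if_pos rfl]
      rw [pr_rep, pr_ne _ _ _ _ _ hd] at h3
      exact h3.1
    · rw [if_neg hay, Nat.add_zero]
      rw [pr_append] at h3
      exact (pr_other (Ez S a) (Or.inl rfl) a y _ R' (Ne.symm hay) hR0').1.1 h3.1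
  · intro hW
    obtain ⟨u, v, hcm⟩ := hP
    obtain ⟨u', v', hcm'⟩ := hQ
    rw [complete_iff] at hcm hcm'
    refine ⟨u, v', ?_⟩
    rw [complete_iff]
    refine ⟨?_, fun a => ?_⟩
    · intro a ha
      have h1 := hcm.1 a
      have h2 := hcm'.1 a
      have h3 := hz a
      simp only [List.mem_append] at ha h1 h2
      tauto
    · have hw : u ++ (P ++ [c] ++ List.replicate R x ++ z ++ (List.replicate R' y ++ (d :: Q))) ++ v'
          = ((u ++ (P ++ [c])) ++ List.replicate R x) ++
          (z ++ (List.replicate R' y ++ (d :: (Q ++ v')))) := by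
        simp only [List.append_assoc, List.cons_append]
      rw [hw]
      have h1 := hcm.2 a
      have hw1 : u ++ (P ++ [c] ++ List.replicate R x) ++ v =
          ((u ++ (P ++ [c])) ++ List.replicate R x) ++ v := by
        simp only [List.append_assoc]
      rw [hw1, split2] at h1
      have h2 := hcm'.2 a
      have hw2 : u' ++ (List.replicate R' y ++ (d :: Q)) ++ v' =
          u' ++ (List.replicate R' y ++ (d :: (Q ++ v'))) := by
        simp only [List.append_assoc, List.cons_append]
      rw [hw2, split2] at h2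
      rw [split3, hend u a]
      obtain ⟨h3, _, _⟩ := h1
      obtain ⟨_, h6, h7⟩ := h2
      generalize tl a 0 u' = t0 at h6 h7
      obtain ⟨h8, h9⟩ := hW a
      generalize (u ++ (P ++ [c])) ++ List.replicate R x = U at h3 ⊢
      generalize tl a (if a = x then R else 0) z = t at h9 ⊢
      by_cases hay : a = y
      · subst hay
        rw [if_pos rfl] at h9
        rw [pr_rep, pr_ne _ _ _ _ _ hd] at h6
        rw [tl_rep, tl_ne _ _ _ _ hd] at h7
        rw [pr_rep, tl_rep, pr_ne _ _ _ _ _ hd, tl_ne _ _ _ _ hd]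
        exact ⟨h3, h8, ⟨h9, h6.2⟩, h7⟩
      · rw [if_neg hay, Nat.add_zero] at h9
        rw [pr_append] at h6
        rw [tl_append] at h7
        rw [pr_append, tl_append]
        have h10 := pr_other (Ez S a) (Or.inl rfl) a y t R' (Ne.symm hay) hR0'
        have h11 := pr_other (Ez S a) (Or.inl rfl) a y t0 R' (Ne.symm hay) hR0'
        rw [h11.2] at h6 h7
        rw [h10.2]
        exact ⟨h3, h8, ⟨h10.1.2 h9, h6.2⟩, h7⟩

/-- a word with two runs -/
theorem two_mem (c x s R : ℕ) (hcn : c < n) (hxn : x < n) (hcx : c ≠ x) (hs : s ∈ S c)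
    (hR : R ∈ Ez S x) (hR0 : 0 < R) :
    List.replicate s c ++ List.replicate R x ∈ RunLang n S := by
  refine ⟨[], [], ?_⟩
  rw [List.nil_append, List.append_nil, complete_iff]
  refine ⟨?_, fun a => ?_⟩
  · intro a ha
    rcases List.mem_append.1 ha with h | h
    · rw [List.eq_of_mem_replicate h]
      exact hcn
    · rw [List.eq_of_mem_replicate h]
      exact hxn
  · rw [split2]
    by_cases hax : a = x
    · subst hax
      have h1 := pr_free (Ez S a) (Or.inl rfl) a (List.replicate s c)
        (fun h => hcx (List.eq_of_mem_replicate h).symm)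
      rw [h1.2]
      have h := pr_rep (Ez S a) a R [] 0
      have h' := tl_rep a R [] 0
      rw [List.append_nil, Nat.zero_add] at h h'
      refine ⟨h1.1, h.2 trivial, ?_⟩
      rw [h']
      exact hR
    · by_cases hac : a = c
      · subst hac
        have h := pr_rep (Ez S a) a s [] 0
        have h' := tl_rep a s [] 0
        rw [List.append_nil, Nat.zero_add] at h h'
        rw [h']
        simp only [tl]
        have h5 := pr_other (Ez S a) (Or.inl rfl) a x s R (Ne.symm hax) hR0
        exact ⟨h.2 trivial, h5.1.2 (Or.inr hs), by rw [h5.2]; exact Or.inl rfl⟩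
      · have h1 := pr_free (Ez S a) (Or.inl rfl) a (List.replicate s c)
          (fun h => hac (List.eq_of_mem_replicate h))
        have h5 := pr_other (Ez S a) (Or.inl rfl) a x 0 R (Ne.symm hax) hR0
        rw [h1.2]
        exact ⟨h1.1, h5.1.2 (Or.inl rfl), by rw [h5.2]; exact Or.inl rfl⟩

/-- relabelling -/
theorem gf_map (T : Finset ℕ) (wt wt' : ℕ → ℂ) (f : List ℕ → ℂ) (π : ℕ → ℕ)
    (hinj : Set.InjOn π T) (hw : ∀ l ∈ T, wt l = wt' (π l)) :
    gf T wt (fun z => f (z.map π)) = gf (T.image π) wt' f := by
  have key : ∀ (k : ℕ) (f : List ℕ → ℂ),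
      cnt T wt k (fun z => f (z.map π)) = cnt (T.image π) wt' k f := by
    intro k
    induction k with
    | zero => intro f; rfl
    | succ k ih =>
      intro f
      have h1 : cnt T wt (k + 1) (fun z => f (z.map π)) =
          ∑ l ∈ T, wt l * cnt T wt k (fun z => f (π l :: z.map π)) := rfl
      have h2 : cnt (T.image π) wt' (k + 1) f =
          ∑ c ∈ T.image π, wt' c * cnt (T.image π) wt' k (fun z => f (c :: z)) := rfl
      rw [h1, h2, Finset.sum_image hinj]
      refine Finset.sum_congr rfl fun l hl => ?_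
      rw [hw l hl, ← ih (fun z => f (π l :: z))]
  ext k
  unfold gf
  rw [PowerSeries.coeff_mk, PowerSeries.coeff_mk, key]

/-- the left anchor of a colour, and its right anchor -/
theorem anchors (N : ℕ) (π : ℕ → ℕ) (hsur : ∀ c < n, ∃ l < N, π l = c)
    (hn : 2 ≤ n) (hne : ∀ a < n, ∃ j ∈ S a, 0 < j) (C : Finset (List ℕ))
    (hL : ColLang N π n S = Fac C) (w w' : List ℕ) (hw : w ∈ Fac C) (hw' : w' ∈ Fac C)
    (x l R : ℕ) (hx : x < n) (hl : l < N) (hπ : π l = x) (hR : R ∈ Ez S x) (hR0 : 0 < R) :
    (∃ (g : List ℕ) (c : ℕ), c < N ∧ π c ≠ x ∧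
      w ++ g ++ [c] ++ List.replicate R l ∈ ColLang N π n S) ∧
    (∃ (g : List ℕ) (c : ℕ), c < N ∧ π c ≠ x ∧
      List.replicate R l ++ (c :: (g ++ w')) ∈ ColLang N π n S) := by
  obtain ⟨c', hc'n, hc'x⟩ : ∃ c' < n, c' ≠ x := by
    by_cases h : x = 0
    · exact ⟨1, by omega, by omega⟩
    · exact ⟨0, by omega, fun h' => h h'.symm⟩
  obtain ⟨c, hcN, hcπ⟩ := hsur c' hc'n
  obtain ⟨s, hs, hs0⟩ := hne c' hc'n
  have hπc : π c ≠ x := by rw [hcπ]; exact hc'x
  obtain ⟨s', rfl⟩ : ∃ s', s = s' + 1 := ⟨s - 1, by omega⟩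
  constructor
  · have hm : List.replicate (s' + 1) c ++ List.replicate R l ∈ ColLang N π n S := by
      refine ⟨?_, ?_⟩
      · intro a ha
        rcases List.mem_append.1 ha with h | h
        · rw [List.eq_of_mem_replicate h]
          exact hcN
        · rw [List.eq_of_mem_replicate h]
          exact hl
      · rw [List.map_append, List.map_replicate, List.map_replicate, hπ, hcπ]
        exact two_mem c' x (s' + 1) R hc'n hx hc'x hs hR hR0
    rw [hL] at hm
    obtain ⟨g, hg⟩ := fac_trans C _ _ hw hm
    refine ⟨g ++ List.replicate s' c, c, hcN, hπc, ?_⟩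
    rw [hL]
    rw [List.replicate_succ'] at hg
    have h1 : w ++ (g ++ List.replicate s' c) ++ [c] ++ List.replicate R l =
        w ++ g ++ (List.replicate s' c ++ [c] ++ List.replicate R l) := by
      simp only [List.append_assoc]
    rw [h1]
    exact hg
  · have hrev : List.replicate R l ++ List.replicate (s' + 1) c ∈ ColLang N π n S := by
      refine ⟨?_, ?_⟩
      · intro a ha
        rcases List.mem_append.1 ha with h | h
        · rw [List.eq_of_mem_replicate h]
          exact hl
        · rw [List.eq_of_mem_replicate h]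
          exact hcN
      · rw [List.map_append, List.map_replicate, List.map_replicate, hπ, hcπ]
        refine two_mem x c' R (s' + 1) hx hc'n (Ne.symm hc'x) ?_ (Or.inr hs) hs0
        exact Set.mem_of_mem_insert_of_ne hR (by omega)
    rw [hL] at hrev
    obtain ⟨g, hg⟩ := fac_trans C _ _ hrev hw'
    refine ⟨List.replicate s' c ++ g, c, hcN, hπc, ?_⟩
    rw [hL]
    rw [List.replicate_succ] at hg
    have h1 : List.replicate R l ++ (c :: (List.replicate s' c ++ g ++ w')) =
        List.replicate R l ++ (c :: List.replicate s' c) ++ g ++ w' := by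
      simp only [List.append_assoc, List.cons_append]
    rw [h1]
    exact hg

/-- synchronization for colours -/
theorem sync_col (N : ℕ) (π : ℕ → ℕ) (P Q z : List ℕ) (x y R R' c d lx ly : ℕ)
    (hx : π lx = x) (hy : π ly = y) (hR0 : 0 < R) (hR0' : 0 < R')
    (hc : π c ≠ x) (hd : π d ≠ y)
    (hP : P ++ [c] ++ List.replicate R lx ∈ ColLang N π n S)
    (hQ : List.replicate R' ly ++ (d :: Q) ∈ ColLang N π n S)
    (hzN : ∀ l ∈ z, l < N) (hz : ∀ l ∈ z, π l < n) :
    P ++ [c] ++ List.replicate R lx ++ z ++ (List.replicate R' ly ++ (d :: Q)) ∈ ColLang N π n S ↔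
      W (Ez S) y R' x R (z.map π) := by
  obtain ⟨hP1, hP2⟩ := hP
  obtain ⟨hQ1, hQ2⟩ := hQ
  rw [List.map_append, List.map_append, List.map_replicate, hx] at hP2
  rw [List.map_append, List.map_cons, List.map_replicate, hy] at hQ2
  have h1 := sync (n := n) (P.map π) (Q.map π) (z.map π) x y R R' (π c) (π d) hR0 hR0' hc hd hP2 hQ2
    (by
      intro a ha
      obtain ⟨l, hl, rfl⟩ := List.mem_map.1 ha
      exact hz l hl)
  rw [← h1]
  constructor
  · rintro ⟨_, h⟩
    rw [List.map_append, List.map_append, List.map_append, List.map_append, List.map_append,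
      List.map_cons, List.map_replicate, List.map_replicate, hx, hy] at h
    exact h
  · intro h
    refine ⟨?_, ?_⟩
    · intro l hl
      rcases List.mem_append.1 hl with h2 | h2
      · rcases List.mem_append.1 h2 with h2 | h2
        · exact hP1 l h2
        · exact hzN l h2
      · exact hQ1 l h2
    · rw [List.map_append, List.map_append, List.map_append, List.map_append, List.map_append,
        List.map_cons, List.map_replicate, List.map_replicate, hx, hy]
      exact h

end Pool.Agent.Helper37.RW
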