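import Pool.Agent.Helper37.RW.H

/-!
# The theorem
-/

set_option autoImplicit false

namespace Pool.Agent.Helper37.RW

open Pool.Agent.Helper31.BD
open Pool.Agent.Helper37.RV (pr W Complete RunLang Ez)
open Pool.Agent.Helper37.RU (gf ind ind_congr ind_true ind_false gf_congr rank_one fac_trans
  algebra finite_words)

theorem ez_reg (S : Set ℕ) (h : Reg S) : Reg (insert 0 S) := by
  rcases h with h | ⟨k, hk, hdiv, h⟩
  · exact Or.inl (h.insert 0)
  · refine Or.inr ⟨k, hk, ?_, ?_⟩
    · intro j hj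
      rcases hj with hj | hj
      · rw [hj]
        exact dvd_zero k
      · exact hdiv j hj
    · exact h.subset (Set.diff_subset_diff_right (Set.subset_insert 0 S))

theorem ez_neutral (S : Set ℕ) (h : Neutral (insert 0 S)) : Neutral S := by
  obtain ⟨k, hk, h⟩ := h
  refine ⟨k, hk, fun j hj => ?_⟩
  rw [← h j hj]
  constructor
  · exact Or.inr
  · intro h1
    exact Set.mem_of_mem_insert_of_ne h1 (by omega)

theorem no_code (N : ℕ) (π : ℕ → ℕ) (n : ℕ) (S : ℕ → Set ℕ) (hn : 2 ≤ n)
    (hsur : ∀ c < n, ∃ l < N, π l = c) (a b c : ℕ) (hab : a ≠ b)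
    (hac : a ≠ c) (hbc : b ≠ c) (han : a < n) (hbn : b < n) (hcn : c < n)
    (hS : ∀ a < n, Reg (S a)) (hne : ∀ a < n, ∃ j ∈ S a, 0 < j)
    (hDa : ¬ Neutral (S a)) (hDb : ¬ Neutral (S b)) (hDc : ¬ Neutral (S c))
    (C : Finset (List ℕ)) (hC : UD C) (hL : ColLang N π n S = Fac C) : False := by
  classical
  have h0 : ∀ l, 0 ∈ Ez S l := fun l => Or.inl rfl
  have hlet : ∀ x < n, ¬ Neutral (S x) → Reg (Ez S x) ∧
      (∃ j ∈ Ez S x, 0 < j) ∧ ¬ Neutral (Ez S x) := by
    intro x hx hD
    refine ⟨ez_reg _ (hS x hx), ?_, fun h => hD (ez_neutral _ h)⟩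
    obtain ⟨j, hj, hj0⟩ := hne x hx
    exact ⟨j, Or.inr hj, hj0⟩
  have la := hlet a han hDa
  have lb := hlet b hbn hDb
  have lc := hlet c hcn hDc
  obtain ⟨Ra, za, ea, Ga, hRa0, hRa, hza, hga0, reca⟩ := letter h0 a la.1 la.2.1 la.2.2
  obtain ⟨Rb, zb, eb, Gb, hRb0, hRb, hzb, hgb0, recb⟩ := letter h0 b lb.1 lb.2.1 lb.2.2
  obtain ⟨Rc, zc, ec, Gc, hRc0, hRc, hzc, hgc0, recc⟩ := letter h0 c lc.1 lc.2.1 lc.2.2
  obtain ⟨lla, hlaN, hlaπ⟩ := hsur a han
  obtain ⟨llb, hlbN, hlbπ⟩ := hsur b hbn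
  obtain ⟨llc, hlcN, hlcπ⟩ := hsur c hcn
  let T' : Finset ℕ := {a, b, c}
  let T : Finset ℕ := {lla, llb, llc}
  let wt' : ℕ → ℂ := fun l => if l = a then za else if l = b then zb else if l = c then zc else 0
  let wt : ℕ → ℂ := fun l => if l ∈ T then wt' (π l) else 0
  have wa : wt' a = za := by simp [wt']
  have wb : wt' b = zb := by simp [wt', hab.symm]
  have wc : wt' c = zc := by simp [wt', hac.symm, hbc.symm]
  have hwt : ∀ l, l ∉ T → wt l = 0 := by
    intro l hl
    exact if_neg hl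
  have hwt' : ∀ l ∈ T, wt l = wt' (π l) := by
    intro l hl
    exact if_pos hl
  have hTcases : ∀ l ∈ T, l = lla ∨ l = llb ∨ l = llc := by
    intro l hl
    simpa only [T, Finset.mem_insert, Finset.mem_singleton] using hl
  have hTN : ∀ l ∈ T, l < N := by
    intro l hl
    rcases hTcases l hl with h | h | h
    · rw [h]; exact hlaN
    · rw [h]; exact hlbN
    · rw [h]; exact hlcN
  have hTn : ∀ l ∈ T, π l < n := by
    intro l hl
    rcases hTcases l hl with h | h | h
    · rw [h, hlaπ]; exact han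
    · rw [h, hlbπ]; exact hbn
    · rw [h, hlcπ]; exact hcn
  have himg : T.image π = T' := by
    simp only [T, T', Finset.image_insert, Finset.image_singleton, hlaπ, hlbπ, hlcπ]
  have hinj : Set.InjOn π T := by
    intro l hl l' hl' h
    rcases hTcases l hl with h1 | h1 | h1 <;> rcases hTcases l' hl' with h2 | h2 | h2 <;>
      rw [h1, h2] at h ⊢ <;> simp only [hlaπ, hlbπ, hlcπ] at h <;>
      first | rfl | exact absurd h hab | exact absurd h hac | exact absurd h hbc |
        exact absurd h.symm hab | exact absurd h.symm hac | exact absurd h.symm hbc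
  have hCne : C.Nonempty := by
    obtain ⟨d, hdn, hda⟩ : ∃ d < n, d ≠ a := ⟨b, hbn, hab.symm⟩
    have hm : List.replicate Ra lla ∈ ColLang N π n S := by
      refine ⟨fun l hl => by rw [List.eq_of_mem_replicate hl]; exact hlaN, ?_⟩
      rw [List.map_replicate, hlaπ]
      exact RV.rep_mem a Ra han hRa
    rw [hL] at hm
    obtain ⟨u, v, l, hl, he⟩ := hm
    cases l with
    | nil =>
      have := congrArg List.length he
      simp at this
      omega
    | cons e l => exact ⟨e, hl e (by simp)⟩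
  obtain ⟨w, w', q, t, u, P, hw, hw', hq, hqq⟩ := rank_one C hC hCne T wt hwt
  have hctx : ∀ x y R R' lx ly (g g' : List ℕ) (e d : ℕ), π lx = x → π ly = y → 0 < R → 0 < R' →
      π e ≠ x → π d ≠ y →
      w ++ g ++ [e] ++ List.replicate R lx ∈ ColLang N π n S →
      List.replicate R' ly ++ (d :: (g' ++ w')) ∈ ColLang N π n S →
      gf T wt (fun z => ind (w ++ (g ++ [e] ++ List.replicate R lx) ++ z ++
        (List.replicate R' ly ++ (d :: g')) ++ w' ∈ Fac C)) =
      gf T' wt' (fun z => ind (W (Ez S) y R' x R z)) := by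
    intro x y R R' lx ly g g' e d hx hy hR0 hR0' he hd hg hg'
    rw [← himg, ← gf_map T wt wt' (fun z => ind (W (Ez S) y R' x R z)) π hinj hwt']
    refine gf_congr T wt _ _ fun z hz => ind_congr ?_
    rw [← hL]
    have h1 := sync_col N π (w ++ g) (g' ++ w') z x y R R' e d lx ly hx hy hR0 hR0' he hd hg hg'
      (fun l hl => hTN l (hz l hl)) (fun l hl => hTn l (hz l hl))
    rw [← h1]
    simp only [List.append_assoc, List.cons_append]
  obtain ⟨⟨ga, ea', hea, heaπ, hga⟩, ⟨ga', da, hda, hdaπ, hga'⟩⟩ :=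
    anchors N π hsur hn hne C hL w w' hw hw' a lla Ra han hlaN hlaπ hRa hRa0
  obtain ⟨⟨gb, eb', heb, hebπ, hgb⟩, ⟨gb', db, hdb, hdbπ, hgb'⟩⟩ :=
    anchors N π hsur hn hne C hL w w' hw hw' b llb Rb hbn hlbN hlbπ hRb hRb0
  obtain ⟨⟨gc, ec', hec, hecπ, hgc⟩, _⟩ :=
    anchors N π hsur hn hne C hL w w' hw hw' c llc Rc hcn hlcN hlcπ hRc hRc0
  have haT : a ∈ T' := by simp [T']
  have hbT : b ∈ T' := by simp [T']
  have hcT : c ∈ T' := by simp [T']
  let L : Fin 3 → List ℕ := ![ga ++ [ea'] ++ List.replicate Ra lla,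
    gb ++ [eb'] ++ List.replicate Rb llb, gc ++ [ec'] ++ List.replicate Rc llc]
  let L' : Fin 2 → List ℕ := ![List.replicate Ra lla ++ (da :: ga'),
    List.replicate Rb llb ++ (db :: gb')]
  have hfin := algebra q hq ea eb ec Ga Gb
    (fun i j => gf T' wt' (fun z => ind (W (Ez S) (![a, b] j) (![Ra, Rb] j) (![a, b, c] i)
      (![Ra, Rb, Rc] i) z)))
    (fun j => PowerSeries.X * ∑ l ∈ T', PowerSeries.C (wt' l) *
      gf T' wt' (fun z => ind (W (Ez S) (![a, b] j) (![Ra, Rb] j) l 1 z)))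
    (fun i => t (L i)) (fun j => u (L' j)) (fun i j => P (L i) (L' j))
    (by
      intro i j
      have h1 := hqq (L i) (L' j)
      rw [← h1]
      congr 1
      symm
      fin_cases i <;> fin_cases j
      · exact hctx a a Ra Ra lla lla ga ga' ea' da hlaπ hlaπ hRa0 hRa0 heaπ hdaπ hga hga'
      · exact hctx a b Ra Rb lla llb ga gb' ea' db hlaπ hlbπ hRa0 hRb0 heaπ hdbπ hga hgb'
      · exact hctx b a Rb Ra llb lla gb ga' eb' da hlbπ hlaπ hRb0 hRa0 hebπ hdaπ hgb hga'
      · exact hctx b b Rb Rb llb llb gb gb' eb' db hlbπ hlbπ hRb0 hRb0 hebπ hdbπ hgb hgb'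
      · exact hctx c a Rc Ra llc lla gc ga' ec' da hlcπ hlaπ hRc0 hRa0 hecπ hdaπ hgc hga'
      · exact hctx c b Rc Rb llc llb gc gb' ec' db hlcπ hlbπ hRc0 hRb0 hecπ hdbπ hgc hgb')
    (by
      have h1 := reca T' wt' a Ra haT wa hRa (fun _ => rfl)
      rw [ind_true rfl, map_one, one_mul] at h1
      exact h1)
    (by
      have h1 := reca T' wt' b Rb haT wa hRb (fun h => absurd h hab)
      rw [ind_false hab, map_zero, zero_mul, sub_zero] at h1
      exact h1)
    (by
      have h1 := recb T' wt' a Ra hbT wb hRa (fun h => absurd h hab.symm)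
      rw [ind_false hab.symm, map_zero, zero_mul, sub_zero] at h1
      exact h1)
    (by
      have h1 := recb T' wt' b Rb hbT wb hRb (fun _ => rfl)
      rw [ind_true rfl, map_one, one_mul] at h1
      exact h1)
    (by
      have h1 := recc T' wt' a Ra hcT wc hRa (fun h => absurd h hac.symm)
      rw [ind_false hac.symm, map_zero, zero_mul, sub_zero] at h1
      exact h1)
    (by
      have h1 := recc T' wt' b Rb hcT wc hRb (fun h => absurd h hbc.symm)
      rw [ind_false hbc.symm, map_zero, zero_mul, sub_zero] at h1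
      exact h1)
    hza hzb hzc
  rcases mul_eq_zero.1 hfin with h | h
  · exact hga0 h
  · exact hgb0 h

/-- lifting a factorization along a map of letters -/
theorem lift_flatten (π : ℕ → ℕ) (l0 : List (List ℕ)) : ∀ V : List ℕ, V.map π = l0.flatten →
    ∃ l : List (List ℕ), l.flatten = V ∧ l.map (List.map π) = l0 := by
  induction l0 with
  | nil =>
    intro V hV
    refine ⟨[], ?_, rfl⟩
    have : V = [] := by simpa using hV
    rw [this]
    rfl
  | cons c l0 ih =>
    intro V hV
    rw [List.flatten_cons] at hV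
    obtain ⟨V1, V2, h1, h2, h3⟩ := List.map_eq_append_iff.1 hV
    obtain ⟨l, h4, h5⟩ := ih V2 h3
    refine ⟨V1 :: l, ?_, ?_⟩
    · rw [List.flatten_cons, h4, h1]
    · rw [List.map_cons, h2, h5]

theorem lift_code (N : ℕ) (π : ℕ → ℕ) (n : ℕ) (S : ℕ → Set ℕ)
    (hsur : ∀ c < n, ∃ l < N, π l = c) (C0 : Finset (List ℕ)) (hC0 : UD C0)
    (hL0 : RunLang n S = Fac C0) : ∃ C : Finset (List ℕ), UD C ∧ ColLang N π n S = Fac C := by
  classical
  have hfin : {w : List ℕ | (∀ l ∈ w, l < N) ∧ w.map π ∈ C0}.Finite := by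
    refine (finite_words N (C0.sup List.length)).subset ?_
    rintro w ⟨h1, h2⟩
    refine ⟨h1, ?_⟩
    have := Finset.le_sup (f := List.length) h2
    rwa [List.length_map] at this
  have hmem : ∀ w, w ∈ hfin.toFinset ↔ (∀ l ∈ w, l < N) ∧ w.map π ∈ C0 :=
    fun w => hfin.mem_toFinset
  have hover : ∀ l, Over hfin.toFinset l → Over C0 (l.map (List.map π)) := by
    intro l hl c hc
    obtain ⟨c', hc', rfl⟩ := List.mem_map.1 hc
    exact ((hmem c').1 (hl c' hc')).2
  refine ⟨hfin.toFinset, ?_, ?_⟩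
  · intro l1 l2 h1 h2 he
    have h3 := hC0 _ _ (hover l1 h1) (hover l2 h2) (by
      rw [← List.map_flatten, ← List.map_flatten, he])
    rw [List.eq_iff_flatten_eq]
    refine ⟨he, ?_⟩
    have h4 := congrArg (List.map List.length) h3
    rw [List.map_map, List.map_map] at h4
    have h5 : (List.length ∘ List.map π) = (List.length : List ℕ → ℕ) := by
      funext w
      simp
    rw [h5] at h4
    exact h4
  · ext w
    constructor
    · rintro ⟨h1, h2⟩
      rw [hL0] at h2
      obtain ⟨u0, v0, l0, hl0, he⟩ := h2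
      have hlt : ∀ x ∈ l0.flatten, x < n := by
        intro x hx
        obtain ⟨c, hc, hxc⟩ := List.mem_flatten.1 hx
        have h3 : c ∈ Fac C0 := ⟨[], [], [c], by
          intro d hd
          rw [List.mem_singleton.1 hd]
          exact hl0 c hc, by simp⟩
        rw [← hL0] at h3
        obtain ⟨a, b, hab, _⟩ := h3
        exact hab x (by simp [hxc])
      let σ : ℕ → ℕ := fun c => if h : c < n then (hsur c h).choose else 0
      have hσ : ∀ c, c < n → σ c < N ∧ π (σ c) = c := by
        intro c h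
        have h4 : σ c = (hsur c h).choose := dif_pos h
        rw [h4]
        exact (hsur c h).choose_spec
      have hmapσ : ∀ x : List ℕ, (∀ c ∈ x, c < n) → (x.map σ).map π = x := by
        intro x hx
        rw [List.map_map]
        conv_rhs => rw [← List.map_id x]
        exact List.map_congr_left fun c hc => (hσ c (hx c hc)).2
      have hu : ∀ c ∈ u0, c < n := fun c hc => hlt c (by rw [← he]; simp [hc])
      have hv : ∀ c ∈ v0, c < n := fun c hc => hlt c (by rw [← he]; simp [hc])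
      obtain ⟨l, h5, h6⟩ := lift_flatten π l0 (u0.map σ ++ w ++ v0.map σ) (by
        rw [List.map_append, List.map_append, hmapσ u0 hu, hmapσ v0 hv, he])
      refine ⟨u0.map σ, v0.map σ, l, ?_, h5.symm⟩
      intro c hc
      rw [hmem]
      refine ⟨?_, ?_⟩
      · intro x hx
        have h7 : x ∈ u0.map σ ++ w ++ v0.map σ := by
          rw [← h5]
          exact List.mem_flatten.2 ⟨c, hc, hx⟩
        rcases List.mem_append.1 h7 with h7 | h7
        · rcases List.mem_append.1 h7 with h7 | h7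
          · obtain ⟨d, hd, rfl⟩ := List.mem_map.1 h7
            exact (hσ d (hu d hd)).1
          · exact h1 x h7
        · obtain ⟨d, hd, rfl⟩ := List.mem_map.1 h7
          exact (hσ d (hv d hd)).1
      · refine hl0 _ ?_
        rw [← h6]
        exact List.mem_map_of_mem hc
    · rintro ⟨u, v, l, hl, he⟩
      refine ⟨?_, ?_⟩
      · intro x hx
        have h1 : x ∈ l.flatten := by
          rw [← he]
          simp [hx]
        obtain ⟨c, hc, hxc⟩ := List.mem_flatten.1 h1
        exact ((hmem c).1 (hl c hc)).1 x hxc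
      · rw [hL0]
        refine ⟨u.map π, v.map π, l.map (List.map π), hover l hl, ?_⟩
        rw [← List.map_append, ← List.map_append, he, List.map_flatten]

/-- **Theorem.** -/
theorem main (N : ℕ) (π : ℕ → ℕ) (n : ℕ) (S : ℕ → Set ℕ) (hn : 2 ≤ n)
    (hsur : ∀ c < n, ∃ l < N, π l = c)
    (hS : ∀ c < n, Reg (S c)) (hne : ∀ c < n, ∃ j ∈ S c, 0 < j) :
    (∃ C : Finset (List ℕ), UD C ∧ ColLang N π n S = Fac C) ↔
      {c | c < n ∧ ¬ Neutral (S c)}.ncard ≤ 2 := by
  classical
  constructor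
  · rintro ⟨C, hC, hL⟩
    by_contra hcard
    push Not at hcard
    have hfin : {c | c < n ∧ ¬ Neutral (S c)}.Finite :=
      (Set.finite_lt_nat n).subset (fun a ha => ha.1)
    rw [Set.ncard_eq_toFinset_card _ hfin] at hcard
    obtain ⟨a, b, c, ha, hb, hc, hab, hac, hbc⟩ := Finset.two_lt_card_iff.1 hcard
    have ha' := hfin.mem_toFinset.1 ha
    have hb' := hfin.mem_toFinset.1 hb
    have hc' := hfin.mem_toFinset.1 hc
    exact no_code N π n S hn hsur a b c hab hac hbc ha'.1 hb'.1 hc'.1 hS hne ha'.2 hb'.2 hc'.2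
      C hC hL
  · intro h
    obtain ⟨C0, hC0, hL0⟩ := sufficient n hn S hS hne h
    exact lift_code N π n S hsur C0 hC0 hL0

end Pool.Agent.Helper37.RW
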